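import Pool.Agent.Lib.SBW.B_LIM

/-! Row FIN: back to the definitions of the hand-in, wide class of laws. -/

namespace Pool.Agent.Lib.SBW

open MeasureTheory ProbabilityTheory Filter Topology Finset Pool.Agent.Lib.FP95
open Pool.Agent.Lib.MP_eba68f_pr hiding Nice
open Pool.Agent.Lib.SL94 (SW T)
open scoped NNReal ENNReal

namespace FIN

open LIM Pool.Agent.Lib.SL94 Pool.Agent.Lib.SB97.ZERO

/-- the law `F` with dummy bounds -/
noncomputable def par (F : Measure ℝ≥0) [IsProbabilityMeasure F] : Par :=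
  { F := F, prob := inferInstance, r := 1, b := 1, r_pos := one_pos, r_le := le_rfl }

/-- linear medians for the weights shifted by one -/
def HK (p : Par) : Prop := ∃ K : ℝ, 0 < K ∧ ∀ (u v : V) (t : ℝ),
  p.pr {τ | T (fun e => τ e + 1) u v < t} ≤ 1 / 2 → t ≤ K * n1 (v - u)

lemma hk_of_lin (hL : SB97.St_LIN) (p : Par) (hint : Integrable (fun t : ℝ≥0 => (t : ℝ)) p.F) :
    HK p := by
  have m1 : Measurable fun t : ℝ≥0 => t + 1 := by fun_prop
  obtain ⟨K, K0, hK⟩ := hL (pm p _ m1) (by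
    refine (integrable_map_measure (by fun_prop) m1.aemeasurable).2 ?_
    exact (hint.add (integrable_const (1 : ℝ))).congr (ae_of_all _ fun t => by simp))
  exact ⟨K, K0, fun u v t h => hK u v t (by rwa [pr_map])⟩

/-- the bound in the working definitions; the only moment input is `HK` -/
lemma main (γ : ℝ) (hP : St_PEIW) (hM : St_LIM) (hC : St_CORE γ) (p : Par) (r : ℝ≥0)
    (hFr : p.F (Set.Iio r) = 0) (hs : ∀ s, r < s → 0 < p.F (Set.Iic s)) (h0 : p.F {r} < 1 / 2)
    (hK : HK p) : ∃ c : ℝ, 0 < c ∧ ∃ N : ℝ, ∀ x : V, N ≤ n1 x → MemLp (fun τ => T τ 0 x) 2 p.P →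
      Real.exp (c * Real.log (n1 x) ^ γ) ≤ variance (fun τ => T τ 0 x) p.P := by
  obtain ⟨K, K0, hK⟩ := hK
  obtain ⟨hi, rh, -, hh⟩ := SL94.FIN.level p.F r (r + 1) hFr (lt_add_one r) _ h0
  have rh' : (r : ℝ) < hi := rh
  set lo : ℝ≥0 := (r + hi) / 2 with hlo
  have l0 : (lo : ℝ) = (r + hi) / 2 := by rw [hlo]; push_cast; ring
  have l1 : r < lo := by rw [← NNReal.coe_lt_coe]; linarith
  have l2 : lo < hi := by rw [← NNReal.coe_lt_coe]; linarith
  have hq : 0 < p.F.real (Set.Iic lo) := ENNReal.toReal_pos (hs _ l1).ne' (measure_ne_top _ _)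
  have hq1 : p.F.real (Set.Iic lo) ≤ 1 := measureReal_le_one
  have hrare : p.F.real (Set.Iic hi) < 1 / 2 := by
    have := (ENNReal.toReal_lt_toReal (measure_ne_top _ _) (by simp)).2 hh
    simpa [Measure.real] using this
  obtain ⟨L, L2, hL⟩ := hP _ hrare
  have L1 : (1 : ℝ) ≤ L := by exact_mod_cast le_trans one_le_two L2
  obtain ⟨c, c0, N, hN⟩ := hC (p.F.real (Set.Iic lo) / L) (hi - lo) (K * L) L (by positivity)
    ((div_le_self hq.le L1).trans hq1) (sub_pos.2 l2) (by positivity)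
  refine ⟨c, c0, N, fun v hv hm => hM p v _ (hi + 1) hm fun R ε hR ε0 ε1 => ?_⟩
  have hR1 : hi < R := lt_of_lt_of_le (lt_add_one hi) hR
  have real_pre : ∀ s : ℝ≥0, s < R →
      (p.F.map fun t : ℝ≥0 => min t R + ε).real (Set.Iic (s + ε)) = p.F.real (Set.Iic s) := by
    intro s hs
    rw [map_measureReal_apply (meas_f R ε) measurableSet_Iic]
    congr 1
    ext t
    simp [hs.not_ge]
  let ps : Sw :=
    { pm p _ (meas_f R ε) with
      r0 := r + ε
      lo := lo + ε
      hi := hi + ε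
      lo_lt := add_lt_add_left l2 ε
      mid := by push_cast; linarith
      zero := by
        change p.F.map _ _ = 0
        rw [Measure.map_apply (meas_f R ε) (measurableSet_singleton _)]
        convert measure_empty (μ := p.F)
        ext t
        simp [ε0.ne']
      supp := by
        change p.F.map _ _ = 0
        rw [Measure.map_apply (meas_f R ε) measurableSet_Iio, ← hFr]
        congr 1
        ext t
        simp [(rh.trans hR1).not_gt]
      q_pos := by
        change 0 < (p.F.map _).real _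
        rw [real_pre lo (l2.trans hR1)]
        exact hq
      L := L
      L_ge := L2 }
  refine le_trans (hN ps (hL ps.toPar (hi + ε) (real_pre hi hR1).le)
    (congrArg (· / (L : ℝ)) (real_pre lo (l2.trans hR1))) ?_ rfl (fun u w t h => ?_) v hv ?_)
    (var_map p (meas_f R ε) 0 v).le
  · change ((hi + ε : ℝ≥0) : ℝ) - (lo + ε : ℝ≥0) = _
    push_cast; ring
  · change (pm p _ (meas_f R ε)).pr _ ≤ _ at h
    rw [pr_map] at h
    have := hK u w t (le_trans (measureReal_mono fun τ hτ =>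
      lt_of_le_of_lt (T_mono (fun e => add_le_add (min_le_left _ _) ε1) u w) hτ) h)
    change t ≤ K * L * (n1 (w - u) / L)
    rwa [mul_assoc, mul_div_cancel₀ _ (by positivity)]
  · change MemLp _ 2 (pm p _ (meas_f R ε)).P
    rw [P_map, memLp_map_measure_iff (T_meas 0 v).aestronglyMeasurable
      (meas_comp (meas_f R ε)).aemeasurable]
    exact (memLp_const ((R + 1) * n1 (v - 0) : ℝ)).mono'
      ((T_meas 0 v).comp (meas_comp (meas_f R ε))).aestronglyMeasurable (ae_of_all _ (bdd R ε1 v))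

/-- from the working definitions to the hand-in -/
lemma out (p : Par) (v : V) (s : ℝ)
    (h : MemLp (fun τ => T τ 0 v) 2 p.P → s ≤ variance (fun τ => T τ 0 v) p.P) :
    ENNReal.ofReal s ≤ evariance (fun τ => passage τ 0 v)
      (Measure.infinitePi fun _ : (lattice 2).edgeSet => p.F) := by
  refine le_trans ?_ (SL94.FIN.ident p v).evariance_eq.ge
  rcases eq_or_ne (evariance (fun τ => T τ 0 v) p.P) ⊤ with ht | ht
  · exact le_top.trans ht.ge
  have hm : MemLp (fun τ => T τ 0 v) 2 p.P :=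
    (evariance_lt_top_iff_memLp (T_meas 0 v).aestronglyMeasurable).1 ht.lt_top
  rw [← ofReal_variance hm]
  exact ENNReal.ofReal_le_ofReal (h hm)

end FIN

open FIN in
theorem bFIN (γ : ℝ) (hP : St_PEIW) (hL : SB97.St_LIN) (hM : St_LIM) (hC : St_CORE γ) :
    St_FIN γ := by
  intro F _ r hint hFr hs h0
  obtain ⟨c, c0, N, h⟩ := main γ hP hM hC (par F) r hFr hs h0 (hk_of_lin hL _ hint)
  exact ⟨c, c0, N, fun v hv => out (par F) v _ (h v hv)⟩

/-- the final statement without a moment hypothesis -/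
def St_FIN1 (γ : ℝ) : Prop := ∀ (F : Measure ℝ≥0) [IsProbabilityMeasure F] (r : ℝ≥0),
  F (Set.Iio r) = 0 → (∀ s, r < s → 0 < F (Set.Iic s)) → F {r} < 1 / 2 →
  ∃ c : ℝ, 0 < c ∧ ∃ N : ℝ, ∀ v : Fin 2 → ℤ, N ≤ |(v 0 : ℝ)| + |(v 1 : ℝ)| →
    ENNReal.ofReal (Real.exp (c * Real.log (|(v 0 : ℝ)| + |(v 1 : ℝ)|) ^ γ)) ≤
      evariance (fun τ => passage τ 0 v) (Measure.infinitePi fun _ : (lattice 2).edgeSet => F)

open FIN in
theorem bFIN1 (γ : ℝ) (hP : St_PEIW)
    (hL : ∀ (p : Par) (x : V), x ≠ 0 → Integrable (fun τ => T τ 0 x) p.P → HK p)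
    (hM : St_LIM) (hC : St_CORE γ) : St_FIN1 γ := by
  intro F _ r hFr hs h0
  by_cases hx : ∃ x : V, x ≠ 0 ∧ MemLp (fun τ => T τ 0 x) 2 (par F).P
  · obtain ⟨x, x0, hm⟩ := hx
    obtain ⟨c, c0, N, h⟩ := main γ hP hM hC (par F) r hFr hs h0
      (hL _ x x0 (hm.integrable (by norm_num)))
    exact ⟨c, c0, N, fun v hv => out (par F) v _ (h v hv)⟩
  · refine ⟨1, one_pos, 1, fun v hv => out (par F) v _ fun hm => (hx ⟨v, ?_, hm⟩).elim⟩
    rintro rfl
    norm_num at hv

end Pool.Agent.Lib.SBW
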