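import Pool.Agent.Lib.SBW.Blue
import Pool.Agent.Lib.SL94.B_SEG

/-! Localisation of the event that a passage time is small, wide class of laws. -/

namespace Pool.Agent.Lib.SBW

open MeasureTheory ProbabilityTheory Finset SimpleGraph Pool.Agent.Lib.FP95
open Pool.Agent.Lib.MP_eba68f_pr hiding Nice
open Pool.Agent.Lib.SL94 (SW T T_le_SW SW_le_SW SW_congr meas_SW exists_lt)
open Pool.Agent.Lib.SB97 (Pth)
open scoped NNReal ENNReal

namespace LOC

/-- some walk within distance `r` of its start has weight below `c` -/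
def Phi (y z : V) (c r : ℝ) : Set Cfg :=
  {τ | ∃ q : G.Walk y z, (∀ e ∈ q.edges, e ∈ near y r) ∧ SW τ q.edges < c}

theorem Phi_sub (y z : V) (c r : ℝ) : Phi y z c r ⊆ {τ | T τ y z < c} :=
  fun τ ⟨q, _, hq⟩ => (T_le_SW τ q).trans_lt hq

theorem Phi_lower (y z : V) (c r : ℝ) : IsLowerSet (Phi y z c r) :=
  fun _ _ h ⟨q, h1, h2⟩ => ⟨q, h1, (SW_le_SW fun e _ => h e).trans_lt h2⟩

theorem Phi_meas (y z : V) (c r : ℝ) : MeasurableSet (Phi y z c r) := by
  have : Phi y z c r =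
      ⋃ q : G.Walk y z, ⋃ _ : ∀ e ∈ q.edges, e ∈ near y r, {τ | SW τ q.edges < c} := by
    ext τ
    simp [Phi]
  rw [this]
  exact MeasurableSet.iUnion fun q => MeasurableSet.iUnion fun _ =>
    measurableSet_lt (meas_SW _) measurable_const

theorem Phi_dep (y z : V) (c r : ℝ) {τ τ' : Cfg} (h : ∀ e ∈ near y r, τ e = τ' e)
    (hτ : τ ∈ Phi y z c r) : τ' ∈ Phi y z c r := by
  obtain ⟨q, h1, h2⟩ := hτ
  refine ⟨q, h1, ?_⟩
  rwa [← SW_congr (τ := τ) fun e he => h e (h1 e he)]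

theorem sub_Phi (L : ℕ) (hi : ℝ≥0) (y z : V) {c : ℝ} {R : ℕ} (hc : 2 * c ≤ hi * R) :
    {τ | T τ y z < c} ⊆ Phi y z c (L * R) ∪ Light L hi y R := by
  classical
  intro τ hτ
  obtain ⟨q, hp, hq⟩ := exists_lt hτ
  by_cases hl : ∀ e ∈ q.edges, e ∈ near y ((L : ℝ) * R)
  · exact Or.inl ⟨q, hl, hq⟩
  simp only [near, Set.mem_ofPred_eq, not_forall, not_le] at hl
  obtain ⟨e, he, v, hv, hlt⟩ := hl
  have hs : v ∈ q.support := by
    induction e using Sym2.ind with
    | _ a b =>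
      rcases Sym2.mem_iff.1 hv with rfl | rfl
      · exact q.fst_mem_support_of_mem_edges he
      · exact q.snd_mem_support_of_mem_edges he
  obtain ⟨m, rfl, hm⟩ := Walk.mem_support_iff_exists_getVert.1 hs
  refine Or.inr ⟨m, q.getVert, q.getVert_zero, ⟨fun j hj => q.adj_getVert_succ (by omega),
    fun i j hi hj h => hp.getVert_injOn (show i ≤ q.length by omega)
      (show j ≤ q.length by omega) h⟩, hlt.le, ?_⟩
  by_contra hn
  set H := (range m).filter fun j => hi < τ s(q.getVert j, q.getVert (j + 1)) with hH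
  have h2 : (R : ℝ) ≤ 2 * H.card := by exact_mod_cast (by omega : R ≤ 2 * H.card)
  have h3 : (H.card : ℝ) * hi ≤ SW τ q.edges := by
    rw [SL94.SEG.SW_eq, ← nsmul_eq_mul]
    refine (card_nsmul_le_sum H _ _ fun j hj => ?_).trans (sum_le_sum_of_subset_of_nonneg
      ((filter_subset _ _).trans (range_subset_range.2 hm)) fun j _ _ => NNReal.coe_nonneg _)
    exact NNReal.coe_le_coe.2 (mem_filter.1 hj).2.le
  have h4 := mul_le_mul_of_nonneg_left h2 hi.coe_nonneg
  linarith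

end LOC

theorem bLOC : St_LOC := by
  intro p hr z y c L hc
  refine ⟨LOC.Phi z y c (p.L * L), LOC.Phi_meas z y c _, LOC.Phi_lower z y c _,
    fun τ τ' h => LOC.Phi_dep z y c _ h, fun τ h => LOC.Phi_sub z y c _ h, ?_⟩
  have h2 := (p.pr_mono (LOC.sub_Phi p.L p.hi z y hc)).trans (p.pr_union_le _ _)
  have h1 : p.pr (Light p.L p.hi z L) ≤ (1 / 2) ^ L := by
    rcases Nat.eq_zero_or_pos L with rfl | hL
    · rw [pow_zero]
      exact p.pr_le_one _
    · exact (hr z L hL).trans (div_le_self (by positivity) (one_le_pow₀ p.one_le))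
  linarith

end Pool.Agent.Lib.SBW
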