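import Pool.Agent.Lib.SBW.Blue
import Pool.Agent.Lib.SB97.B_MARK

/-! Row MARK: few marked edges on the window event, wide class of laws. -/

namespace Pool.Agent.Lib.SBW

open MeasureTheory ProbabilityTheory Filter Topology Finset Pool.Agent.Lib.FP95
open Pool.Agent.Lib.MP_eba68f_pr hiding Nice
open Pool.Agent.Lib.SL94 (SW T)
open Pool.Agent.Lib.SB97 (Qt Pth Dt cnt)
open scoped NNReal ENNReal

namespace MARK

lemma one (hM : SB97.St_MART) (p : Sw) (o x : V) (a : V → ℝ) {α θ t H N : ℝ}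
    (I : Finset (V × V)) (hα : 0 < α) (hA : Adm p θ H)
    (ha : ∀ y, p.pr {τ | T τ o y < a y} ≤ α * θ)
    (ht : p.pr {τ | T τ o x < t} ≤ α) (hI : ∀ i ∈ I, G.Adj i.1 i.2) (hN : 0 < N)
    (hc : (I.card : ℝ) ≤ 100 * (p.L * N) ^ 2) :
    ∑ i ∈ I, p.pr (p.Ev o x a i.1 i.2 ∩ {τ | t - H + p.d / 2 ≤ T τ o x ∧ T τ o x ≤ t}) ≤
      N * α / 128 := by
  obtain ⟨θ0, -, H0, h⟩ := hA
  have L0 := p.L_pos
  have c0 : 0 < p.q * p.d := mul_pos p.q_pos' p.d_pos
  have s0 : 0 < √θ := Real.sqrt_pos.2 θ0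
  have es : √θ * √θ = θ := Real.mul_self_sqrt θ0.le
  have key := hM p.toSys o x a (α * θ) α t H (10 * (p.L * N) * √θ / H) I (by positivity) H0.le
    ha ht hI
  rw [← p.q_mul] at key
  generalize √θ = s at *
  generalize (p.L : ℝ) = L at *
  subst es
  have h1 : 2560 * H * s ≤ p.q * p.d :=
    abs_le_of_sq_le_sq' (by linarith) c0.le |>.2
  have e3 := mul_le_mul_of_nonneg_left hc
    (show 0 ≤ α * (s * s) / (2 * (10 * (L * N) * s / H)) by positivity)
  have e4 : α * (s * s) / (2 * (10 * (L * N) * s / H)) * (100 * (L * N) ^ 2) =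
      5 * (H * s * (L * N * α)) := by
    field_simp
    ring
  have e5 : 10 * (L * N) * s / H / 2 * (H ^ 2 * α) = 5 * (H * s * (L * N * α)) := by
    field_simp
    ring
  have e6 := mul_le_mul_of_nonneg_right h1 (show 0 ≤ L * N * α by positivity)
  refine le_of_mul_le_mul_left ?_ (half_pos (mul_pos c0 L0))
  linarith

end MARK

open SB97.MARK (fW fW_eq fW_nonneg fW_int) in
theorem bMARK (hM : SB97.St_MART) (hD : SB97.St_DT) : St_MARK := by
  intro p u v M w a b α θ t H hM1 hw hα hA ha hb ht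
  obtain ⟨d1, d2⟩ := hD u (p.L * ((M + 1) * w))
  have M1 : (1 : ℝ) ≤ M := by exact_mod_cast hM1
  have w2 : (2 : ℝ) ≤ w := by exact_mod_cast hw
  have N2 : (2 : ℝ) * M ≤ M * w := by nlinarith
  have N3 : (w : ℝ) ≤ M * w := by nlinarith
  have hc : ((Dt u (p.L * ((M + 1) * w))).card : ℝ) ≤ 100 * (p.L * ((M : ℝ) * w)) ^ 2 := by
    refine d2.trans ?_
    have : 2 * (((p.L * ((M + 1) * w) : ℕ)) : ℝ) + 1 ≤ 5 * (p.L * (M * w)) := by
      have k1 := mul_le_mul_of_nonneg_left N3 p.L_pos.le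
      have k2 := mul_le_mul_of_nonneg_right p.one_le (show (0 : ℝ) ≤ M * w by linarith)
      push_cast
      linarith
    have := pow_le_pow_left₀ (by positivity) this 2
    linarith
  generalize Dt u (p.L * ((M + 1) * w)) = I at *
  have hI : ∀ i ∈ I, G.Adj i.1 i.2 := fun i hi => ((d1 i.1 i.2).1 hi).1
  have e : ∀ τ, T τ v u = T τ u v := fun τ => SL94.T_comm τ v u
  have s1 := MARK.one hM p u v a _ hα hA ha ht hI (by linarith) hc
  have s2 := MARK.one hM p v u b (t := t) _ hα hA hb (by simpa only [e] using ht) hI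
    (by linarith) hc
  simp only [e] at s2
  have hW : MeasurableSet {τ | t - H + p.d / 2 ≤ T τ u v ∧ T τ u v ≤ t} :=
    (measurableSet_le measurable_const (SL94.T_meas u v)).inter
      (measurableSet_le (SL94.T_meas u v) measurable_const)
  obtain ⟨i1, j1⟩ := fW_int p.toSys u v a I hW
  obtain ⟨i2, j2⟩ := fW_int p.toSys v u b I hW
  have m := mul_meas_ge_le_integral_of_nonneg (μ := p.P)
    (ae_of_all _ fun τ => add_nonneg (fW_nonneg _ _ _ _ _ _ τ) (fW_nonneg _ _ _ _ _ _ τ))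
    (i1.add i2) (M * w / 8)
  rw [integral_add i1 i2, j1, j2] at m
  refine le_of_mul_le_mul_left (a := (M : ℝ) * w / 8) (le_trans (mul_le_mul_of_nonneg_left
    (p.pr_mono fun τ hτ => ?_) (by linarith)) (m.trans (by linarith))) (by linarith)
  have h1 : ((M * (w - 1) : ℕ) : ℝ) ≤ 4 * (cnt p.toSys u v a I τ + cnt p.toSys v u b I τ) := by
    exact_mod_cast hτ.2
  rw [Nat.cast_mul, Nat.cast_sub (by omega), Nat.cast_one] at h1
  show (M : ℝ) * w / 8 ≤ fW _ _ _ _ _ _ τ + fW _ _ _ _ _ _ τ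
  rw [fW_eq _ _ _ _ _ hτ.1, fW_eq _ _ _ _ _ hτ.1]
  linarith

end Pool.Agent.Lib.SBW
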