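import Pool.Agent.Lib.SBW.B_PEIW
import Pool.Agent.Lib.SBW.B_SEG
import Pool.Agent.Lib.SBW.B_DET
import Pool.Agent.Lib.SBW.B_MARK
import Pool.Agent.Lib.SBW.B_DICH
import Pool.Agent.Lib.SBW.B_CONCAT
import Pool.Agent.Lib.SBW.B_LOC
import Pool.Agent.Lib.SBW.B_RESET
import Pool.Agent.Lib.SBW.B_STEP
import Pool.Agent.Lib.SBW.B_ITER
import Pool.Agent.Lib.SBW.B_TOP
import Pool.Agent.Lib.SBW.B_CORE
import Pool.Agent.Lib.SBW.B_FIN
import Pool.Agent.Lib.SBW.B_LIN1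
import Pool.Agent.Lib.SB97.B_QUANT
import Pool.Agent.Lib.SB97.B_HAR
import Pool.Agent.Lib.SB97.B_MART
import Pool.Agent.Lib.SB97.B_DT
import Pool.Agent.Lib.SB97.B_PLANT
import Pool.Agent.Lib.SB97.B_VAR
import Pool.Agent.Lib.SB97.B_ARITH
import Pool.Agent.Lib.SB97.B_RATE

/-! Assembly of the rows, wide class of laws. -/

namespace Pool.Agent.Lib.SBW

theorem st_DICH : St_DICH :=
  bDICH SB97.bQUANT (bDET SB97.bDT bSEG) (bMARK SB97.bMART SB97.bDT)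

theorem st_RESET : St_RESET := bRESET SB97.bHAR st_DICH bLOC (SB97.bPLANT SB97.bHAR)

theorem st_TOP : St_TOP :=
  bTOP SB97.bQUANT (bITER (bSTEP (bCONCAT SB97.bHAR st_DICH) st_RESET)) st_RESET SB97.bVAR

theorem st_CORE : St_CORE (1 / 3) := bCORE st_TOP SB97.bARITH SB97.bRATE

theorem fin_of_core (γ : ℝ) (h : St_CORE γ) : St_FIN1 γ :=
  bFIN1 γ bPEIW (fun p x hx hI => lin1 p x hx hI) bLIM h

theorem st_FIN1 : St_FIN1 (1 / 3) := fin_of_core _ st_CORE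

end Pool.Agent.Lib.SBW
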