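import Pool.Agent.Lib.SBW.Blue
import Pool.Agent.Lib.SB18.Zero

/-! Row LIM: removing the cap and the shift of the weights. -/

namespace Pool.Agent.Lib.SBW

open MeasureTheory ProbabilityTheory Filter Topology Finset Pool.Agent.Lib.FP95
open Pool.Agent.Lib.MP_eba68f_pr hiding Nice
open Pool.Agent.Lib.SL94 (SW T)
open scoped NNReal ENNReal

namespace LIM

open Pool.Agent.Lib.SL94 Pool.Agent.Lib.SB97.ZERO

lemma meas_f (R ε : ℝ≥0) : Measurable fun t : ℝ≥0 => min t R + ε := by fun_prop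

lemma bdd (R : ℝ≥0) {ε : ℝ≥0} (hε : ε ≤ 1) (v : V) (τ : Cfg) :
    |T (fun e => min (τ e) R + ε) 0 v| ≤ (R + 1) * n1 (v - 0) := by
  rw [abs_of_nonneg (T_nonneg _ _ _)]
  exact T_bdd (fun e => by exact_mod_cast add_le_add (min_le_right _ _) hε) v

end LIM

open LIM Pool.Agent.Lib.SL94 Pool.Agent.Lib.SB97.ZERO in
theorem bLIM : St_LIM := by
  intro p v s R₀ hm H
  refine var_lim p.P (fun j τ => T (fun e => min (τ e) (R₀ + j)) 0 v) _ _ _
    (fun j => (T_meas 0 v).comp (meas_comp (f := fun t => min t (R₀ + j)) (by fun_prop))) hm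
    (fun j τ => by
      rw [abs_of_nonneg (T_nonneg _ _ _)]; exact T_mono (fun e => min_le_left _ _) 0 v)
    (fun τ => T_cap τ 0 v R₀) fun j => ?_
  have he1 : ∀ i : ℕ, (1 / ((i : ℝ≥0) + 1)) ≤ 1 := fun i =>
    div_le_one_of_le₀ le_add_self (by positivity)
  exact var_lim p.P (fun i τ => T (fun e => min (τ e) (R₀ + j) + 1 / ((i : ℝ≥0) + 1)) 0 v) _
    (fun _ => ((R₀ + j : ℝ≥0) + 1) * n1 (v - 0)) _
    (fun i => (T_meas 0 v).comp (meas_comp (meas_f _ _))) (memLp_const _)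
    (fun i => bdd _ (he1 i) v) (fun τ => T_shift _ 0 v _ tendsto_one_div_add_atTop_nhds_zero_nat)
    fun i => H _ _ le_self_add (by positivity) (he1 i)

end Pool.Agent.Lib.SBW
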