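import Pool.Agent.Lib.SL94.Base

/-! Row LIN1: one integrable passage time gives medians of linear size for the shifted weights. -/

namespace Pool.Agent.Lib.SBW

open MeasureTheory ProbabilityTheory Finset Pool.Agent.Lib.FP95
open Pool.Agent.Lib.MP_eba68f_pr hiding Nice
open Pool.Agent.Lib.SL94 (SW T Sys T_nonneg T_meas T_tri T_adj T_self le_T SW_nonneg card_nb)
open scoped NNReal ENNReal

namespace LIN1

abbrev Z2 : Type := ℤ × ℤ

/-- passage time for the weights increased by one -/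
noncomputable def T1 (τ : Cfg) (u v : V) : ℝ := T (fun e => τ e + 1) u v

theorem T1_meas (u v : V) : Measurable fun τ => T1 τ u v :=
  (T_meas u v).comp (measurable_pi_lambda _ fun e => (measurable_pi_apply e).add_const 1)

/-- steps of a chain of sites -/
def steps : Z2 → List Z2 → List (Z2 × Z2)
  | _, [] => []
  | a, b :: L => (a, b) :: steps b L

/-- last site of a chain -/
def last : Z2 → List Z2 → Z2
  | a, [] => a
  | _, b :: L => last b L

def nx (e : Z2 × Z2) : Prop := |e.1.1 - e.2.1| + |e.1.2 - e.2.2| = 1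

instance : DecidablePred nx := fun e => by unfold nx; infer_instance

theorem chain (ι : Z2 → V) (hι : ∀ e, nx e → G.Adj (ι e.1) (ι e.2)) (τ : Cfg) (s : ℝ)
    (L : List Z2) : ∀ a, (∀ e ∈ steps a L, nx e) → (∀ e ∈ steps a L, (τ s(ι e.1, ι e.2) : ℝ) ≤ s) →
    T τ (ι a) (ι (last a L)) ≤ s * L.length := by
  induction L with
  | nil => intro a _ _; simp [last, T_self]
  | cons b L ih =>
    intro a h1 h2
    have k1 := ih b (fun e he => h1 e (List.mem_cons_of_mem _ he))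
      fun e he => h2 e (List.mem_cons_of_mem _ he)
    have k2 := T_adj τ (hι _ (h1 (a, b) List.mem_cons_self))
    have k3 := h2 (a, b) List.mem_cons_self
    have k4 := T_tri τ (ι a) (ι b) (ι (last b L))
    simp only [last, List.length_cons, Nat.cast_add, Nat.cast_one] at *
    linarith

def P1 : List Z2 := [(1, 0)]
def P2 : List Z2 := [(0, 1), (1, 1), (1, 0)]
def P3 : List Z2 := [(0, -1), (1, -1), (1, 0)]
def P4 : List Z2 := [(-1, 0), (-1, 1), (-1, 2), (0, 2), (1, 2), (2, 2), (2, 1), (2, 0), (1, 0)]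

/-- one step out of each of the four chains -/
def I : List (List (Z2 × Z2)) :=
  (steps 0 P1).flatMap fun a => (steps 0 P2).flatMap fun b => (steps 0 P3).flatMap fun c =>
    (steps 0 P4).map fun d => [a, b, c, d]

theorem I_len : I.length = 81 := by decide

theorem I_ok : ∀ l ∈ I, l.length = 4 ∧ (l.map fun e => e.1 + e.2).Nodup := by decide

theorem cyl (p : Par) (E : Finset (Sym2 V)) (c : ℝ≥0) :
    p.P {τ | ∀ e ∈ E, c ≤ τ e} = p.F (Set.Ici c) ^ E.card := by
  have := Measure.infinitePi_pi (fun _ : Sym2 V => p.F) (s := E) (t := fun _ => Set.Ici c)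
    fun _ _ => measurableSet_Ici
  rw [Finset.prod_const] at this
  rw [← this]
  rfl

theorem near (p : Par) (ι : Z2 → V) (hι : ∀ e, nx e → G.Adj (ι e.1) (ι e.2))
    (hi : Function.Injective ι) (s : ℝ≥0) :
    p.P {τ | 9 * ((s : ℝ) + 1) < T1 τ (ι 0) (ι (1, 0))} ≤ 81 * p.F (Set.Ici s) ^ 4 := by
  classical
  have hs : (0 : ℝ) ≤ s := s.coe_nonneg
  have one : ∀ (τ : Cfg) (L : List Z2), 9 * ((s : ℝ) + 1) < T1 τ (ι 0) (ι (1, 0)) →
      (∀ e ∈ steps 0 L, nx e) → last 0 L = (1, 0) → L.length ≤ 9 →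
      ∃ e ∈ steps 0 L, s ≤ τ s(ι e.1, ι e.2) := by
    intro τ L h h1 h2 h3
    by_contra hc
    push Not at hc
    have k := chain ι hι (fun e => τ e + 1) (s + 1) L 0 h1 fun e he => by
      have := NNReal.coe_le_coe.2 (hc e he).le
      push_cast
      linarith
    rw [h2] at k
    unfold T1 at h
    have h4 : (L.length : ℝ) ≤ 9 := by exact_mod_cast h3
    nlinarith
  have hsub : {τ | 9 * ((s : ℝ) + 1) < T1 τ (ι 0) (ι (1, 0))} ⊆ ⋃ l ∈ I.toFinset,
      {τ : Cfg | ∀ e ∈ (l.map fun e => s(ι e.1, ι e.2)).toFinset, s ≤ τ e} := by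
    intro τ h
    obtain ⟨a, ha, ka⟩ := one τ P1 h (by decide) (by decide) (by decide)
    obtain ⟨b, hb, kb⟩ := one τ P2 h (by decide) (by decide) (by decide)
    obtain ⟨c, hc, kc⟩ := one τ P3 h (by decide) (by decide) (by decide)
    obtain ⟨d, hd, kd⟩ := one τ P4 h (by decide) (by decide) (by decide)
    refine Set.mem_biUnion (x := [a, b, c, d]) ?_ ?_
    · simp only [I, mem_coe, List.mem_toFinset, List.mem_flatMap, List.mem_map]
      exact ⟨a, ha, b, hb, c, hc, d, hd, rfl⟩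
    · simp [ka, kb, kc, kd]
  refine (measure_mono hsub).trans ((measure_biUnion_finset_le _ _).trans ?_)
  refine (sum_le_card_nsmul _ _ (p.F (Set.Ici s) ^ 4) fun l hl => ?_).trans ?_
  · obtain ⟨h1, h2⟩ := I_ok l (List.mem_toFinset.1 hl)
    have h3 : (l.map fun e => s(ι e.1, ι e.2)).Nodup := by
      have h4 := h2.of_map _
      rw [List.nodup_map_iff_inj_on h4] at h2 ⊢
      intro x hx y hy h
      refine h2 x hx y hy ?_
      rcases Sym2.eq_iff.1 h with ⟨k1, k2⟩ | ⟨k1, k2⟩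
      · rw [hi k1, hi k2]
      · rw [hi k1, hi k2, add_comm]
    rw [cyl, List.toFinset_card_of_nodup h3, List.length_map, h1]
  · rw [nsmul_eq_mul]
    refine mul_le_mul_left ?_ _
    have := (List.toFinset_card_le I).trans_eq I_len
    exact_mod_cast this

theorem adj (p : Par) {y z : V} (h : G.Adj y z) (s : ℝ≥0) :
    p.P {τ | 9 * ((s : ℝ) + 1) < T1 τ y z} ≤ 81 * p.F (Set.Ici s) ^ 4 := by
  have key : ∀ a b : ℤ, (a = 1 ∧ b = 0) ∨ (a = -1 ∧ b = 0) ∨ (a = 0 ∧ b = 1) ∨ (a = 0 ∧ b = -1) →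
      z 0 = y 0 + a → z 1 = y 1 + b →
      p.P {τ | 9 * ((s : ℝ) + 1) < T1 τ y z} ≤ 81 * p.F (Set.Ici s) ^ 4 := by
    intro a b hab h0 h1
    have k := near p (fun w => pt (y 0 + w.1 * a - w.2 * b) (y 1 + w.1 * b + w.2 * a))
      (fun e he => by
        unfold nx at he
        simp only [adj_iff, pt_zero, pt_one]
        rcases hab with ⟨rfl, rfl⟩ | ⟨rfl, rfl⟩ | ⟨rfl, rfl⟩ | ⟨rfl, rfl⟩ <;>
          rcases abs_cases (e.1.1 - e.2.1) with k1 | k1 <;>
          rcases abs_cases (e.1.2 - e.2.2) with k2 | k2 <;> omega)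
      (fun v w hw => by
        simp only [vext_iff, pt_zero, pt_one] at hw
        refine Prod.ext ?_ ?_ <;>
          rcases hab with ⟨rfl, rfl⟩ | ⟨rfl, rfl⟩ | ⟨rfl, rfl⟩ | ⟨rfl, rfl⟩ <;> omega) s
    have e1 : pt (y 0 + (0 : Z2).1 * a - (0 : Z2).2 * b) (y 1 + (0 : Z2).1 * b + (0 : Z2).2 * a)
        = y := vext (by simp) (by simp)
    have e2 : pt (y 0 + 1 * a - 0 * b) (y 1 + 1 * b + 0 * a) = z :=
      vext (by simp [h0]) (by simp [h1])
    simpa only [e1, e2] using k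
  rcases adj_iff.1 h with ⟨h0, h1⟩ | ⟨h0, h1⟩ | ⟨h0, h1⟩ | ⟨h0, h1⟩
  · exact key 1 0 (by simp) h0 (by simp [h1])
  · exact key (-1) 0 (by simp) h0 (by simp [h1])
  · exact key 0 1 (by simp) (by simp [h0]) h1
  · exact key 0 (-1) (by simp) (by simp [h0]) h1

theorem four (p : Par) {x : V} (hx : x ≠ 0) (s : ℝ≥0) :
    p.F (Set.Ici s) ^ 4 ≤ p.P {τ | (s : ℝ) ≤ T τ 0 x} := by
  classical
  have h1 : ((nb 0).image fun w => s((0 : V), w)).card ≤ 4 := card_image_le.trans (card_nb 0)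
  refine (pow_le_pow_of_le_one zero_le prob_le_one h1).trans ((cyl p _ s).ge.trans (measure_mono ?_))
  intro τ hτ
  refine le_T fun q => ?_
  cases q with
  | nil => exact absurd rfl hx
  | cons h q =>
    have k := NNReal.coe_le_coe.2 (hτ _ (mem_image_of_mem _ (mem_nb.2 h)))
    rw [SimpleGraph.Walk.edges_cons, SL94.SW_cons]
    linarith [SW_nonneg τ q.edges]

/-- mean passage time -/
noncomputable def mn (p : Par) (u v : V) : ℝ≥0∞ := ∫⁻ τ, ENNReal.ofReal (T1 τ u v) ∂p.P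

theorem mn_adj (p : Par) {x y z : V} (hx : x ≠ 0) (h : G.Adj y z) :
    mn p y z ≤ 9 * (81 * ∫⁻ τ, ENNReal.ofReal (T τ 0 x) ∂p.P) + 9 := by
  have m : Measurable fun τ => max (T1 τ y z / 9 - 1) 0 :=
    (((T1_meas y z).div_const 9).sub_const 1).max measurable_const
  have e : mn p y z ≤ 9 * ∫⁻ τ, ENNReal.ofReal (max (T1 τ y z / 9 - 1) 0) ∂p.P + 9 := by
    have e9 : ∫⁻ _, (9 : ℝ≥0∞) ∂p.P = 9 := by simp
    rw [← lintegral_const_mul _ m.ennreal_ofReal]
    nth_rewrite 2 [← e9]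
    rw [← lintegral_add_right _ measurable_const]
    refine lintegral_mono fun τ => ?_
    rw [← ENNReal.ofReal_ofNat, ← ENNReal.ofReal_mul (by norm_num)]
    refine le_trans (ENNReal.ofReal_le_ofReal ?_) ENNReal.ofReal_add_le
    linarith [le_max_left (T1 τ y z / 9 - 1) 0]
  refine e.trans (add_le_add_left (mul_le_mul_right ?_ _) _)
  rw [lintegral_eq_lintegral_meas_lt (f := fun τ => max (T1 τ y z / 9 - 1) 0) _
      (ae_of_all _ fun τ => le_max_right _ _) m.aemeasurable,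
    lintegral_eq_lintegral_meas_le _ (ae_of_all _ fun τ => T_nonneg τ 0 x)
      (T_meas 0 x).aemeasurable, ← lintegral_const_mul' _ _ (by norm_num : (81 : ℝ≥0∞) ≠ ⊤)]
  refine setLIntegral_mono' measurableSet_Ioi fun t ht => ?_
  have ht' : 0 < t := ht
  lift t to ℝ≥0 using ht'.le
  refine le_trans (measure_mono fun τ hτ => ?_)
    ((adj p h t).trans (mul_le_mul_right (four p hx t) _))
  have k : (t : ℝ) < max (T1 τ y z / 9 - 1) 0 := hτ
  show 9 * ((t : ℝ) + 1) < T1 τ y z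
  rcases lt_max_iff.1 k with k | k <;> linarith

theorem mn_walk (p : Par) {c : ℝ≥0∞} (hc : ∀ y z, G.Adj y z → mn p y z ≤ c) {u v : V}
    (q : G.Walk u v) : mn p u v ≤ q.length * c := by
  induction q with
  | nil => simp [mn, T1, T_self]
  | @cons a b d h q ih =>
    have k : mn p a d ≤ mn p a b + mn p b d := by
      unfold mn
      rw [← lintegral_add_left (T1_meas a b).ennreal_ofReal]
      exact lintegral_mono fun τ =>
        (ENNReal.ofReal_le_ofReal (T_tri _ a b d)).trans ENNReal.ofReal_add_le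
    rw [SimpleGraph.Walk.length_cons, Nat.cast_add, Nat.cast_one, add_mul, one_mul, add_comm]
    exact k.trans (add_le_add (hc a b h) ih)

end LIN1

/-- one integrable passage time gives linear medians for the weights increased by one -/
theorem lin1 (p : Par) (x : V) (hx : x ≠ 0) (hI : Integrable (fun τ => T τ 0 x) p.P) :
    ∃ K : ℝ, 0 < K ∧ ∀ (u v : V) (t : ℝ),
      p.pr {τ | T (fun e => τ e + 1) u v < t} ≤ 1 / 2 → t ≤ K * n1 (v - u) := by
  obtain ⟨c, hc, ha⟩ : ∃ c : ℝ≥0∞, c ≠ ⊤ ∧ ∀ y z, G.Adj y z → LIN1.mn p y z ≤ c :=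
    ⟨_, ENNReal.add_ne_top.2 ⟨ENNReal.mul_ne_top (by norm_num)
      (ENNReal.mul_ne_top (by norm_num) hI.lintegral_lt_top.ne), by norm_num⟩,
      fun y z h => LIN1.mn_adj p hx h⟩
  have h0 : 0 ≤ c.toReal := ENNReal.toReal_nonneg
  refine ⟨2 * c.toReal + 1, by linarith, fun u v t ht => ?_⟩
  change p.pr {τ | LIN1.T1 τ u v < t} ≤ 1 / 2 at ht
  obtain ⟨q, hq⟩ := exists_walk u v
  have h7 := n1_nonneg (v - u)
  have h8 := mul_nonneg h0 h7
  rcases le_total t 0 with k | k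
  · nlinarith
  have h2 := (mul_le_mul_right (measure_mono (μ := p.P) (s := {τ | t ≤ LIN1.T1 τ u v})
    fun τ hτ => ENNReal.ofReal_le_ofReal hτ) _).trans
      ((mul_meas_ge_le_lintegral (LIN1.T1_meas u v).ennreal_ofReal (ENNReal.ofReal t)).trans
        (LIN1.mn_walk p ha q))
  have h3 := ENNReal.toReal_mono (ENNReal.mul_ne_top (ENNReal.natCast_ne_top _) hc) h2
  rw [ENNReal.toReal_mul, ENNReal.toReal_mul, ENNReal.toReal_ofReal k, ENNReal.toReal_natCast,
    hq] at h3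
  have h4 : p.pr Set.univ ≤ p.pr ({τ | LIN1.T1 τ u v < t} ∪ {τ | t ≤ LIN1.T1 τ u v}) :=
    p.pr_mono fun τ _ => lt_or_ge (LIN1.T1 τ u v) t
  have h5 := p.pr_union_le {τ | LIN1.T1 τ u v < t} {τ | t ≤ LIN1.T1 τ u v}
  rw [p.pr_univ] at h4
  have h6 : 1 / 2 ≤ (p.P {τ | t ≤ LIN1.T1 τ u v}).toReal := by
    change 1 / 2 ≤ p.pr {τ | t ≤ LIN1.T1 τ u v}
    linarith
  have h9 := mul_le_mul_of_nonneg_left h6 k
  nlinarith

end Pool.Agent.Lib.SBW
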