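import Pool.Agent.Lib.SBW.Spr90
import Pool.Agent.Lib.SL94.Base

/-! Lattice paths with few heavy edges are exponentially rare when light edges are subcritical. -/

namespace Pool.Agent.Lib.SBW.Pei90

open MeasureTheory ProbabilityTheory Finset Pool.Agent.Lib.FP95
open Pool.Agent.Lib.MP_eba68f_pr hiding Nice
open scoped NNReal ENNReal

/-- a site as a pair of integers -/
def co (v : V) : ℤ × ℤ := (v 0, v 1)

/-- the unordered pair of sites indexed by the sum of its ends -/
def edge (m : ℤ × ℤ) : Sym2 V := s(pt (m.1 / 2) (m.2 / 2), pt (m.1 - m.1 / 2) (m.2 - m.2 / 2))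

lemma edge_inj : Function.Injective edge := by
  intro m m' h
  rw [edge, edge, Sym2.eq_iff] at h
  simp only [vext_iff, pt_zero, pt_one] at h
  ext <;> omega

lemma edge_adj {u v : V} (h : G.Adj u v) : edge (co u + co v) = s(u, v) := by
  rw [edge, Sym2.eq_iff]
  simp only [vext_iff, pt_zero, pt_one, co, Prod.fst_add, Prod.snd_add]
  rw [adj_iff] at h
  omega

lemma co_adj {u v : V} (h : G.Adj u v) : helper98.adj (co u) (co v) := by
  rw [adj_iff] at h
  simp only [helper98.adj, co]
  omega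

/-- the configuration of light edges -/
def lt (hi : ℝ≥0) (τ : Cfg) : ℤ × ℤ → Prop := fun m => τ (edge m) ≤ hi

lemma meas_le (hi : ℝ≥0) : Measurable fun t : ℝ≥0 => t ≤ hi :=
  measurableSet_setOfPred.1 measurableSet_Iic

lemma meas_lt' (hi : ℝ≥0) : Measurable (lt hi) :=
  measurable_pi_iff.2 fun m => (meas_le hi).comp (measurable_pi_apply (edge m))

lemma map_le (p : Par) (hi : ℝ≥0) : p.F.map (fun t : ℝ≥0 => t ≤ hi) =
    bernoulliMeasure True False
      (Set.projIcc (0 : ℝ) 1 zero_le_one (p.F.real (Set.Iic hi))) := by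
  have := p.prob
  have h0 : 0 ≤ p.F.real (Set.Iic hi) := measureReal_nonneg
  have h1 : p.F.real (Set.Iic hi) ≤ 1 := measureReal_le_one
  have e1 : ((Set.projIcc (0 : ℝ) 1 zero_le_one (p.F.real (Set.Iic hi)) : unitInterval) : ℝ) =
      p.F.real (Set.Iic hi) := by rw [Set.projIcc_of_mem zero_le_one ⟨h0, h1⟩]
  have : IsProbabilityMeasure (p.F.map fun t : ℝ≥0 => t ≤ hi) :=
    Measure.isProbabilityMeasure_map (meas_le hi).aemeasurable
  have kT : (p.F.map fun t : ℝ≥0 => t ≤ hi).real {True} = (bernoulliMeasure True False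
      (Set.projIcc (0 : ℝ) 1 zero_le_one (p.F.real (Set.Iic hi)))).real {True} := by
    rw [bernoulliMeasure_real_apply_of_mem_of_notMem _ (measurableSet_singleton True) rfl
      (by simp), e1, map_measureReal_apply (meas_le hi) (measurableSet_singleton True)]
    congr 1
    ext t
    simp
  have hc : ({False} : Set Prop) = {True}ᶜ := by
    ext P
    simp
  refine Measure.ext_of_singleton fun P => ?_
  rw [← measureReal_eq_measureReal_iff (measure_ne_top _ _) (measure_ne_top _ _)]
  by_cases hP : P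
  · rw [eq_true hP]; exact kT
  · rw [eq_false hP, hc, probReal_compl_eq_one_sub (measurableSet_singleton True),
      probReal_compl_eq_one_sub (measurableSet_singleton True), kT]

lemma map_lt (p : Par) (hi : ℝ≥0) :
    p.P.map (lt hi) = helper98.PP (ℤ × ℤ) (p.F.real (Set.Iic hi)) := by
  have := p.prob
  have h1 : p.P.map (fun τ m => τ (edge m)) = Measure.infinitePi fun _ : ℤ × ℤ => p.F :=
    Measure.map_infinitePi_infinitePi_of_inj edge_inj
  have h2 : (Measure.infinitePi fun _ : ℤ × ℤ => p.F).map (fun σ m => σ m ≤ hi) =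
      helper98.PP (ℤ × ℤ) (p.F.real (Set.Iic hi)) := by
    rw [Measure.infinitePi_map_pi _ (f := fun _ (t : ℝ≥0) => t ≤ hi) fun _ => meas_le hi,
      helper98.PP]
    congr 1
    funext _
    exact map_le p hi
  have h3 : Measurable fun (σ : ℤ × ℤ → ℝ≥0) (m : ℤ × ℤ) => σ m ≤ hi :=
    measurable_pi_iff.2 fun m => (meas_le hi).comp (measurable_pi_apply m)
  rw [← h2, ← h1, Measure.map_map h3 (by fun_prop)]
  rfl

lemma conn (ω : ℤ × ℤ → Prop) (g : ℕ → V) : ∀ m : ℕ, (∀ j, j < m → G.Adj (g j) (g (j + 1))) →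
    (∀ j, j < m → ω (co (g j) + co (g (j + 1)))) →
    helper98.Conn ω Set.univ (co (g 0)) (co (g m)) := by
  intro m
  induction m with
  | zero => intro _ _; exact helper98.Conn.refl (Set.mem_univ _)
  | succ m ih =>
    intro h1 h2
    exact (ih (fun j hj => h1 j (by omega)) fun j hj => h2 j (by omega)).tail
      (co_adj (h1 m (by omega))) (h2 m (by omega)) (Set.mem_univ _)

lemma incr_near {ι : Type} {A : Set (ι → Prop)} (h : helper98.Incr A) (k : ℕ) :
    helper98.Incr (Spr90.Near k A) := by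
  rintro ω ω' hh ⟨S, h1, h2⟩
  exact ⟨S, h1, h.ovr (S : Set ι) True ω ω' hh h2⟩

/-- paths with large displacement and few heavy edges are rare -/
theorem peiw (q : ℝ) (hq : q < 1 / 2) : ∃ L : ℕ, 2 ≤ L ∧ ∀ (p : Par) (hi : ℝ≥0),
    p.F.real (Set.Iic hi) ≤ q → ∀ (v : V) (n : ℕ), 1 ≤ n →
      p.pr {τ | ∃ (m : ℕ) (g : ℕ → V), g 0 = v ∧ (∀ j, j < m → G.Adj (g j) (g (j + 1))) ∧
        ((L * n : ℕ) : ℝ) ≤ n1 (g m - v) ∧
        ((range m).filter fun j => hi < τ s(g j, g (j + 1))).card ≤ n} ≤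
      (1 / 2) ^ n / (L : ℝ) ^ 2 := by
  classical
  obtain ⟨K, hK, hb⟩ := Spr90.near_arm (q := max q 0) (le_max_right _ _)
    (max_lt hq (by norm_num))
  refine ⟨2 * K, by omega, fun p hi h v n hn => le_trans ?_ (hb (co v) n hn)⟩
  have hd : helper98.Dep (helper98.Ed (helper98.box (co v) ((K * n : ℕ) : ℤ)))
      (Spr90.Near n (helper98.Arm (co v) ((K * n : ℕ) : ℤ))) :=
    Spr90.dep_near (helper98.dep_Cr _ _ _) n
  have hf := helper98.Ed_finite (helper98.box_finite (co v) ((K * n : ℕ) : ℤ))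
  have hm := hd.measurableSet hf
  refine le_trans ?_ (helper98.pr_mono_param (p := p.F.real (Set.Iic hi)) measureReal_nonneg
    (h.trans (le_max_left _ _)) (max_le (by linarith) zero_le_one) hf hd
    (incr_near (helper98.incr_Cr _ _ _) n))
  rw [helper98.pr, ← map_lt, map_measureReal_apply (meas_lt' hi) hm]
  refine p.pr_mono ?_
  rintro τ ⟨m, g, h0, h1, h2, h3⟩
  refine ⟨((range m).filter fun j => hi < τ s(g j, g (j + 1))).image
    fun j => co (g j) + co (g (j + 1)), card_image_le.trans h3, ?_⟩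
  have hc := conn (helper98.ovr ((((range m).filter fun j => hi < τ s(g j, g (j + 1))).image
    fun j => co (g j) + co (g (j + 1)) : Finset (ℤ × ℤ)) : Set (ℤ × ℤ)) True (lt hi τ)) g m h1
    fun j hj => by
      by_cases hh : hi < τ s(g j, g (j + 1))
      · rw [helper98.ovr_of_mem (mem_coe.2 (mem_image_of_mem _
          (mem_filter.2 ⟨mem_range.2 hj, hh⟩)))]
        trivial
      · refine helper98.le_ovr_true _ _ _ ?_
        rw [lt, edge_adj (h1 j hj)]
        exact not_lt.1 hh
  rw [h0] at hc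
  have hout : co (g m) ∉ helper98.box (co v) (((K * n : ℕ) : ℤ) - 1) := by
    intro hin
    rw [helper98.mem_box] at hin
    simp only [co] at hin
    have e : n1 (g m - v) = ((|g m 0 - v 0| + |g m 1 - v 1| : ℤ) : ℝ) := by
      simp [n1]
    rw [e, mul_assoc] at h2
    have h4 : ((2 * (K * n) : ℕ) : ℤ) ≤ |g m 0 - v 0| + |g m 1 - v 1| := by exact_mod_cast h2
    have a0 : |g m 0 - v 0| ≤ ((K * n : ℕ) : ℤ) - 1 := abs_le.2 ⟨by omega, by omega⟩
    have a1 : |g m 1 - v 1| ≤ ((K * n : ℕ) : ℤ) - 1 := abs_le.2 ⟨by omega, by omega⟩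
    omega
  have := helper98.mem_arm (Int.natCast_nonneg (K * n)) hc hout
  rwa [Set.univ_inter] at this

end Pool.Agent.Lib.SBW.Pei90
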