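import Pool.Agent.Lib.SBW.Blue
import Pool.Agent.Lib.SBW.Pei90

/-! The Peierls bound for subcritical light edges. -/

namespace Pool.Agent.Lib.SBW

theorem bPEIW : St_PEIW := by
  intro q hq
  obtain ⟨L, hL, h⟩ := Pei90.peiw q hq
  refine ⟨L, hL, fun p hi hp v n hn => le_trans (p.pr_mono ?_) (h p hi hp v n hn)⟩
  rintro τ ⟨m, g, h0, h1, h2, h3⟩
  exact ⟨m, g, h0, h1.1, by rwa [Nat.cast_mul], by omega⟩

end Pool.Agent.Lib.SBW
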