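import Pool.Agent.Lib.SB97.Blue

/-! Definitions and rows for the iterated variance bound in the plane, wide class of laws. -/

namespace Pool.Agent.Lib.SBW

open MeasureTheory ProbabilityTheory Filter Topology Finset Pool.Agent.Lib.FP95
open Pool.Agent.Lib.MP_eba68f_pr hiding Nice
open Pool.Agent.Lib.SL94 (SW T)
open Pool.Agent.Lib.SB97 (Qt Pth Dt cnt)
open scoped NNReal ENNReal

/-- a weight law with its levels and a unit of length -/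
structure Sw extends SL94.Sys where
  L : ℕ
  L_ge : 2 ≤ L

namespace Sw

variable (p : Sw)

/-- the probability of a light edge, divided by the unit of length -/
noncomputable def q : ℝ := p.toSys.q / p.L
/-- the norm in the unit of length -/
noncomputable def nn (v : V) : ℝ := n1 v / p.L
/-- edges within distance `t` in the unit of length -/
def nr (u : V) (t : ℝ) : Set (Sym2 V) := near u (p.L * t)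

lemma one_le : (1 : ℝ) ≤ p.L := by exact_mod_cast le_trans one_le_two p.L_ge
lemma L_pos : (0 : ℝ) < p.L := one_pos.trans_le p.one_le
lemma q_pos' : 0 < p.q := div_pos p.toSys.q_pos' p.L_pos
lemma q_le' : p.q ≤ p.toSys.q := div_le_self p.toSys.q_pos'.le p.one_le
lemma q_le : p.q ≤ 1 := p.q_le'.trans p.toSys.q_le
lemma q_mul : p.q * p.L = p.toSys.q := div_mul_cancel₀ _ p.L_pos.ne'
lemma q_pr (e : Sym2 V) : p.q ≤ p.pr {τ | τ e ≤ p.lo} :=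
  p.q_le'.trans (SL94.pr_eval p.toPar e (s := Set.Iic p.lo) measurableSet_Iic).ge
lemma le_nn {c : ℝ} {v : V} : c ≤ p.nn v ↔ p.L * c ≤ n1 v := le_div_iff₀' p.L_pos
lemma lt_nn {c : ℝ} {v : V} : c < p.nn v ↔ p.L * c < n1 v := lt_div_iff₀' p.L_pos
lemma nn_le {c : ℝ} {v : V} : p.nn v ≤ c ↔ n1 v ≤ p.L * c := div_le_iff₀' p.L_pos
lemma nn_lt {c : ℝ} {v : V} : p.nn v < c ↔ n1 v < p.L * c := div_lt_iff₀' p.L_pos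
lemma nn_tri (u v w : V) : p.nn (w - u) ≤ p.nn (v - u) + p.nn (w - v) := by
  unfold nn
  rw [← add_div]
  exact div_le_div_of_nonneg_right (n1_tri u v w) p.L_pos.le
lemma nr_finite (u : V) (t : ℝ) : (p.nr u t).Finite := near_finite _ _
lemma nr_disjoint {u u' : V} {t t' : ℝ} (h : t + t' < p.nn (u - u')) :
    Disjoint (p.nr u t) (p.nr u' t') :=
  near_disjoint (by rw [← mul_add]; exact p.lt_nn.1 h)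

end Sw

/-- below every quantile of level `α ∈ [π, 1/2]` one gains `g` with probability `c α ^ k` -/
def Gain (p : Sw) (g ρ π : ℝ) (k : ℕ) (c : ℝ) : Prop :=
  ∀ (u v : V) (α t : ℝ), ρ ≤ p.nn (v - u) → π ≤ α → α ≤ 1 / 2 → Qt p.toPar α u v t →
    c * α ^ k ≤ p.pr {τ | T τ u v ≤ t - g}

/-- medians grow at most linearly -/
def Lin (p : Sw) (K : ℝ) : Prop :=
  ∀ (u v : V) (t : ℝ), p.pr {τ | T τ u v < t} ≤ 1 / 2 → t ≤ K * p.nn (v - u)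

/-- admissible pair of a level ratio and a window -/
def Adm (p : Sw) (θ H : ℝ) : Prop :=
  0 < θ ∧ θ ≤ 1 ∧ 0 < H ∧ (2560 * H) ^ 2 * θ ≤ (p.q * p.d) ^ 2

/-- some self-avoiding path from `v` goes to distance `L n` with at most `n / 2` heavy edges -/
def Light (L : ℕ) (hi : ℝ≥0) (v : V) (n : ℕ) : Set Cfg :=
  {τ | ∃ m g, g 0 = v ∧ Pth m g ∧ (L : ℝ) * n ≤ n1 (g m - v) ∧
    2 * ((range m).filter fun j => hi < τ s(g j, g (j + 1))).card ≤ n}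

/-- long paths with few heavy edges are rare -/
def Rare (p : Sw) : Prop :=
  ∀ (v : V) (n : ℕ), 1 ≤ n → p.pr (Light p.L p.hi v n) ≤ (1 / 2) ^ n / (p.L : ℝ) ^ 2

/-- the site lies in the shell number `i` of width `w` round `u` -/
def Sh (p : Sw) (u : V) (w i : ℕ) (y : V) : Prop :=
  ((i * w : ℕ) : ℝ) < p.nn (y - u) ∧ p.nn (y - u) ≤ (((i + 1) * w : ℕ) : ℝ)

/-- subcritical light edges -/
def St_PEIW : Prop := ∀ q₀ : ℝ, q₀ < 1 / 2 → ∃ L : ℕ, 2 ≤ L ∧ ∀ (p : Par) (hi : ℝ≥0),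
  p.F.real (Set.Iic hi) ≤ q₀ → ∀ (v : V) (n : ℕ), 1 ≤ n →
    p.pr (Light L hi v n) ≤ (1 / 2) ^ n / (L : ℝ) ^ 2

/-- the piece of a nearly optimal path in one shell -/
def St_SEG : Prop := ∀ (p : Sw) (τ : Cfg) (u v : V) (w i : ℕ) (s : ℝ), 1 ≤ w → 0 < s →
  (((i + 1) * w : ℕ) : ℝ) ≤ p.nn (v - u) →
  ∃ m g, Pth m g ∧ (∀ j, j ≤ m → Sh p u w i (g j)) ∧
    (p.L : ℝ) * ((w - 1 : ℕ) : ℝ) ≤ n1 (g m - g 0) ∧ ∀ j, j < m →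
      T τ u (g j) + τ s(g j, g (j + 1)) + T τ (g (j + 1)) v ≤ T τ u v + s

/-- good edges in half of the shells -/
def St_DET : Prop := ∀ (p : Sw) (τ : Cfg) (u v : V) (M w : ℕ) (a b : V → ℝ), 2 ≤ w →
  (((M + 1) * w : ℕ) : ℝ) ≤ p.nn (v - u) →
  (∀ y, p.nn (y - u) ≤ (((M + 1) * w : ℕ) : ℝ) → τ ∉ Light p.L p.hi y (w - 1)) →
  4 * (cnt p.toSys u v a (Dt u (p.L * ((M + 1) * w))) τ +
    cnt p.toSys v u b (Dt u (p.L * ((M + 1) * w))) τ) ≤ M * (w - 1) →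
  ∃ (S : Finset ℕ) (y z : ℕ → V), M ≤ 2 * S.card ∧ ∀ i ∈ S, 1 ≤ i ∧ i ≤ M ∧ G.Adj (y i) (z i) ∧
    Sh p u w i (y i) ∧ Sh p u w i (z i) ∧ a (y i) + p.hi + b (z i) ≤ T τ u v + p.d / 2

/-- few marked edges on the window event -/
def St_MARK : Prop := ∀ (p : Sw) (u v : V) (M w : ℕ) (a b : V → ℝ) (α θ t H : ℝ), 1 ≤ M → 2 ≤ w →
  0 < α → Adm p θ H → (∀ y, p.pr {τ | T τ u y < a y} ≤ α * θ) →
  (∀ z, p.pr {τ | T τ v z < b z} ≤ α * θ) → p.pr {τ | T τ u v < t} ≤ α →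
  p.pr {τ | (t - H + p.d / 2 ≤ T τ u v ∧ T τ u v ≤ t) ∧ M * (w - 1) ≤
    4 * (cnt p.toSys u v a (Dt u (p.L * ((M + 1) * w))) τ +
      cnt p.toSys v u b (Dt u (p.L * ((M + 1) * w))) τ)} ≤ α / 8

/-- the dichotomy -/
def St_DICH : Prop := ∀ (p : Sw), Rare p → ∀ (u v : V) (M w : ℕ) (α θ t H : ℝ), 1 ≤ M → 2 ≤ w →
  0 < α → α ≤ 1 / 2 → Adm p θ H → Qt p.toPar α u v t → (((M + 1) * w : ℕ) : ℝ) ≤ p.nn (v - u) →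
  200 * ((M : ℝ) * w) ^ 2 * (1 / 2) ^ (w - 1) ≤ α →
  α / 2 ≤ p.pr {τ | T τ u v ≤ t - H + p.d / 2} ∨
    ∃ (S : Finset ℕ) (y z : ℕ → V) (A B : ℕ → ℝ), M ≤ 2 * S.card ∧ ∀ i ∈ S, 1 ≤ i ∧ i ≤ M ∧
      G.Adj (y i) (z i) ∧ Sh p u w i (y i) ∧ Sh p u w i (z i) ∧ Qt p.toPar (α * θ) u (y i) (A i) ∧
      Qt p.toPar (α * θ) (z i) v (B i) ∧ A i + p.hi + B i ≤ t + p.d / 2

/-- two halves -/
def St_CONCAT : Prop := ∀ (p : Sw), Rare p → ∀ (g π θ H : ℝ) (ρ : ℕ), Adm p θ H → θ ≤ p.q →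
  θ ≤ 1 / 2 → 2 * g + p.d ≤ H → 2 ≤ ρ → 0 < π → 200 * (ρ : ℝ) ^ 2 * (1 / 2) ^ (ρ - 1) ≤ π →
  Gain p g ρ (π * θ) 2 (θ ^ 6) → Gain p (2 * g + p.d / 2) (3 * ρ) π 4 (θ ^ 17)

/-- localisation -/
def St_LOC : Prop := ∀ (p : Sw), Rare p → ∀ (z y : V) (c : ℝ) (L : ℕ), 2 * c ≤ p.hi * L →
  ∃ Φ : Set Cfg, MeasurableSet Φ ∧ IsLowerSet Φ ∧
    (∀ τ τ' : Cfg, (∀ e ∈ p.nr z L, τ e = τ' e) → τ ∈ Φ → τ' ∈ Φ) ∧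
    (∀ τ ∈ Φ, T τ z y < c) ∧ p.pr {τ | T τ z y < c} - (1 / 2) ^ L ≤ p.pr Φ

/-- many places -/
def St_RESET : Prop := ∀ (p : Sw), Rare p → ∀ (K g π c : ℝ) (k ρ M w L : ℕ), 0 < K →
  Lin p K → 0 ≤ g → 0 < c → Gain p g ρ π k c →
  ∀ (u v : V) (α t θ₁ θ₂ H₁ H₂ : ℝ), 0 < α → α ≤ 1 / 2 → Qt p.toPar α u v t → Adm p θ₁ H₁ →
  Adm p θ₂ H₂ → π ≤ α * θ₁ * θ₂ → 1 ≤ M → 2 ≤ w → 2 ≤ ρ →
  200 * ((M : ℝ) * w) ^ 2 * (1 / 2) ^ (w - 1) ≤ α →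
  200 * (ρ : ℝ) ^ 2 * (1 / 2) ^ (ρ - 1) ≤ α * θ₁ → 4 * K * ρ + p.d ≤ p.hi * L → 2 * L ≤ w →
  (1 / 2) ^ L ≤ c * (α * θ₁ * θ₂) ^ k / 2 →
  32 ≤ (p.q ^ 2 * (α * θ₁) * (α * θ₁ * θ₂)) ^ 2 * M * (c * (α * θ₁ * θ₂) ^ k) →
  (((M + 1) * w + 2 * ρ : ℕ) : ℝ) ≤ p.nn (v - u) →
  α / 2 ≤ p.pr {τ | T τ u v ≤ t - H₁ + p.d / 2} ∨
    p.q * (α * θ₁) ^ 2 / 2 ≤ p.pr {τ | T τ u v ≤ t - H₂} ∨
    p.q ^ 2 * (α * θ₁) * (α * θ₁ * θ₂) / 2 ≤ p.pr {τ | T τ u v ≤ t - g}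

/-- one round -/
def St_STEP : Prop := ∀ (p : Sw), Rare p → ∀ (K g π θ H : ℝ) (C₀ ρ M : ℕ), 0 < K →
  Lin p K → 2 ≤ C₀ → 12 * K + p.d ≤ p.hi * C₀ → Adm p θ H → θ ≤ p.q → θ ≤ 1 / 2 → 0 ≤ g →
  2 * g + p.d ≤ H → 2 ≤ ρ → 0 < π → π ≤ 1 → 32 ≤ π ^ 8 * θ ^ 35 * M →
  400 * (2 * (C₀ : ℝ) * M * ρ) ^ 2 * (1 / 2) ^ ρ ≤ π ^ 4 * θ ^ 25 →
  Gain p g ρ (π * θ ^ 3) 2 (θ ^ 6) →
  Gain p (2 * g + p.d / 2) (((4 * C₀ + 6) * M * ρ : ℕ) : ℝ) π 2 (θ ^ 6)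

/-- `n` rounds -/
def St_ITER : Prop := ∀ (p : Sw), Rare p → ∀ (K π θ H : ℝ) (C₀ ρ₀ M n : ℕ), 0 < K →
  Lin p K → 2 ≤ C₀ → 12 * K + p.d ≤ p.hi * C₀ → Adm p θ H → θ ≤ p.q → θ ≤ 1 / 2 →
  2 ^ n * p.d ≤ H → 2 ≤ ρ₀ → 0 < π → π ≤ 1 → 32 ≤ (π * θ ^ (3 * n)) ^ 8 * θ ^ 35 * M →
  (∀ ρ : ℕ, ρ₀ ≤ ρ →
    400 * (2 * (C₀ : ℝ) * M * ρ) ^ 2 * (1 / 2) ^ ρ ≤ (π * θ ^ (3 * n)) ^ 4 * θ ^ 25) →
  Gain p ((2 ^ n - 1) * p.d / 2) ((((4 * C₀ + 6) * M) ^ n * ρ₀ : ℕ) : ℝ) π 2 (θ ^ 6)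

/-- the last round -/
def St_TOP : Prop := ∀ (p : Sw), Rare p → ∀ (K : ℝ) (C₀ ρ₀ M k : ℕ), 0 < K → Lin p K →
  2 ≤ C₀ → 12 * K + p.d ≤ p.hi * C₀ → 1 ≤ k → 2 ≤ ρ₀ →
  32 ≤ ((p.q / 2560) ^ 2 / 4 ^ (6 * k)) ^ (144 * k + 59) * M →
  (∀ ρ : ℕ, ρ₀ ≤ ρ → 400 * (2 * (C₀ : ℝ) * M * ρ) ^ 2 * (1 / 2) ^ ρ ≤
    ((p.q / 2560) ^ 2 / 4 ^ (6 * k)) ^ (72 * k + 37)) →
  ∀ x : V, ((((4 * C₀ + 6) * M) ^ (6 * k + 1) * ρ₀ : ℕ) : ℝ) ≤ p.nn x →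
  MemLp (fun τ => T τ 0 x) 2 p.P →
  p.q ^ 2 * ((p.q / 2560) ^ 2) ^ 3 * p.d ^ 2 / 1024 * 4 ^ k ≤ variance (fun τ => T τ 0 x) p.P

/-- the bound for a system, uniform in the constants -/
def St_CORE (γ : ℝ) : Prop := ∀ (q d K : ℝ) (L : ℕ), 0 < q → q ≤ 1 → 0 < d → 0 < K →
  ∃ c : ℝ, 0 < c ∧ ∃ N : ℝ, ∀ p : Sw, Rare p → p.q = q → p.d = d → p.L = L → Lin p K →
    ∀ x : V, N ≤ n1 x → MemLp (fun τ => T τ 0 x) 2 p.P →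
      Real.exp (c * Real.log (n1 x) ^ γ) ≤ variance (fun τ => T τ 0 x) p.P

/-- removing a truncation and a shift of the weights -/
def St_LIM : Prop := ∀ (p : Par) (x : V) (s : ℝ) (R₀ : ℝ≥0), MemLp (fun τ => T τ 0 x) 2 p.P →
  (∀ R ε : ℝ≥0, R₀ ≤ R → 0 < ε → ε ≤ 1 →
    s ≤ variance (fun τ : Cfg => T (fun e => min (τ e) R + ε) 0 x) p.P) →
  s ≤ variance (fun τ => T τ 0 x) p.P

/-- the final statement -/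
def St_FIN (γ : ℝ) : Prop := ∀ (F : Measure ℝ≥0) [IsProbabilityMeasure F] (r : ℝ≥0),
  Integrable (fun t : ℝ≥0 => (t : ℝ)) F → F (Set.Iio r) = 0 →
  (∀ s, r < s → 0 < F (Set.Iic s)) → F {r} < 1 / 2 →
  ∃ c : ℝ, 0 < c ∧ ∃ N : ℝ, ∀ v : Fin 2 → ℤ, N ≤ |(v 0 : ℝ)| + |(v 1 : ℝ)| →
    ENNReal.ofReal (Real.exp (c * Real.log (|(v 0 : ℝ)| + |(v 1 : ℝ)|) ^ γ)) ≤
      evariance (fun τ => passage τ 0 v) (Measure.infinitePi fun _ : (lattice 2).edgeSet => F)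

end Pool.Agent.Lib.SBW
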