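import Pool.Agent.Lib.helper98.Zhang

/-! Sprinkling for product measures and exponential decay for arms with few closed edges. -/

namespace Pool.Agent.Lib.SBW.Spr90

open Set Pool.Agent.Lib.helper98

variable {ι : Type}

/-- iterated average over a list of coordinates -/
noncomputable def Ex (p : ℝ) : List ι → ((ι → Prop) → ℝ) → ℝ
  | [], f => f fun _ => False
  | e :: l, f => p * Ex p l (fun ω => f (ovr {e} True ω)) +
      (1 - p) * Ex p l (fun ω => f (ovr {e} False ω))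

lemma Ex_lin (p a b : ℝ) (l : List ι) : ∀ f g : (ι → Prop) → ℝ,
    Ex p l (fun ω => a * f ω + b * g ω) = a * Ex p l f + b * Ex p l g := by
  induction l with
  | nil => intro f g; rfl
  | cons e l ih =>
    intro f g
    simp only [Ex]
    rw [ih (fun ω => f (ovr {e} True ω)) (fun ω => g (ovr {e} True ω)),
      ih (fun ω => f (ovr {e} False ω)) (fun ω => g (ovr {e} False ω))]
    ring

lemma cons_sdiff (e : ι) (l : List ι) : {x | x ∈ e :: l} \ {e} ⊆ {x | x ∈ l} := by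
  rintro x ⟨h1, h2⟩
  rcases List.mem_cons.1 h1 with h | h
  · exact (h2 h).elim
  · exact h

lemma pr_eq_Ex {p : ℝ} (h0 : 0 ≤ p) (h1 : p ≤ 1) (l : List ι) : ∀ A : Set (ι → Prop),
    Dep {x | x ∈ l} A → pr p A = Ex p l (A.indicator fun _ => 1) := by
  induction l with
  | nil =>
    intro A hA
    have hA' : Dep ∅ A := hA.mono (by intro x hx; simp at hx)
    rcases hA'.eq_of_empty with rfl | rfl
    · simp [pr_empty, Ex]
    · simp [pr_univ, Ex]
  | cons e l ih =>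
    intro A hA
    rw [pr_rec h0 h1 hA (List.finite_toSet _) e, ih _ ((hA.ovr {e} True).mono (cons_sdiff e l)),
      ih _ ((hA.ovr {e} False).mono (cons_sdiff e l))]
    rfl

lemma ovr_tt (S T : Set ι) (ω : ι → Prop) :
    ovr S True (ovr T True ω) = ovr T True (ovr S True ω) := by
  rw [← ovr_union, ← ovr_union, union_comm]

lemma ovr_absorb {S : Set ι} {e : ι} (he : e ∈ S) (ω : ι → Prop) :
    ovr S True (ovr {e} False ω) = ovr {e} True (ovr (S \ {e}) True ω) := by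
  funext i
  by_cases h1 : i = e
  · subst h1
    rw [ovr_of_mem he, ovr_of_mem (mem_singleton i)]
  · rw [ovr_of_notMem (B := {e}) h1]
    by_cases h2 : i ∈ S
    · rw [ovr_of_mem h2, ovr_of_mem (B := S \ {e}) ⟨h2, h1⟩]
    · rw [ovr_of_notMem h2, ovr_of_notMem (B := {e}) h1,
        ovr_of_notMem (B := S \ {e}) fun h => h2 h.1]

lemma sprinkle_Ex {q ε : ℝ} (h0 : 0 ≤ q) (h1 : q ≤ 1) (e0 : 0 ≤ ε) (e1 : ε ≤ 1) (l : List ι) :
    ∀ f g : (ι → Prop) → ℝ, (∀ ω, 0 ≤ f ω) → (∀ ω ω', (∀ e, ω e → ω' e) → f ω ≤ f ω') →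
    (∀ ω ω', (∀ e ∈ l, (ω e ↔ ω' e)) → f ω = f ω') →
    (∀ ω, ∃ S : Finset ι, g ω ≤ ε ^ S.card * f (ovr (S : Set ι) True ω)) →
    Ex q l g ≤ Ex (q + (1 - q) * ε) l f := by
  classical
  induction l with
  | nil =>
    intro f g f0 _ fd hg
    obtain ⟨S, hS⟩ := hg fun _ => False
    simp only [Ex]
    rw [fd _ (fun _ => False) (by simp)] at hS
    exact hS.trans (mul_le_of_le_one_left (f0 _) (pow_le_one₀ e0 e1))
  | cons e l ih =>
    intro f g f0 fm fd hg
    have dep : ∀ (b : Prop) (ω ω' : ι → Prop), (∀ x ∈ l, (ω x ↔ ω' x)) →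
        f (ovr {e} b ω) = f (ovr {e} b ω') := fun b ω ω' h => by
      refine fd _ _ fun x hx => ?_
      by_cases hx' : x = e
      · rw [ovr_of_mem (B := {e}) hx', ovr_of_mem (B := {e}) hx']
      · rw [ovr_of_notMem (B := {e}) hx', ovr_of_notMem (B := {e}) hx']
        exact h x (cons_sdiff e l ⟨hx, hx'⟩)
    have mon : ∀ (b : Prop) (ω ω' : ι → Prop), (∀ x, ω x → ω' x) →
        f (ovr {e} b ω) ≤ f (ovr {e} b ω') := fun b ω ω' h => fm _ _ (ovr_mono _ b h)
    have ft : ∀ ω, f (ovr {e} False ω) ≤ f (ovr {e} True ω) := fun ω =>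
      fm _ _ fun x hx => le_ovr_true _ ω x (ovr_false_le _ ω x hx)
    have k1 := ih (fun ω => f (ovr {e} True ω)) (fun ω => g (ovr {e} True ω)) (fun ω => f0 _)
      (mon True) (dep True) fun ω => by
        obtain ⟨S, hS⟩ := hg (ovr {e} True ω)
        exact ⟨S, by rwa [ovr_tt] at hS⟩
    have k2 := ih (fun ω => ε * f (ovr {e} True ω) + (1 - ε) * f (ovr {e} False ω))
      (fun ω => g (ovr {e} False ω))
      (fun ω => add_nonneg (mul_nonneg e0 (f0 _)) (mul_nonneg (sub_nonneg.2 e1) (f0 _)))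
      (fun ω ω' h => add_le_add (mul_le_mul_of_nonneg_left (mon True ω ω' h) e0)
        (mul_le_mul_of_nonneg_left (mon False ω ω' h) (sub_nonneg.2 e1)))
      (fun ω ω' h => by rw [dep True ω ω' h, dep False ω ω' h]) fun ω => by
        obtain ⟨S, hS⟩ := hg (ovr {e} False ω)
        by_cases he : e ∈ S
        · refine ⟨S.erase e, hS.trans ?_⟩
          rw [ovr_absorb (Finset.mem_coe.2 he), ← Finset.coe_erase,
            ← Finset.card_erase_add_one he, pow_succ, mul_assoc]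
          refine mul_le_mul_of_nonneg_left ?_ (pow_nonneg e0 _)
          exact le_add_of_nonneg_right (mul_nonneg (sub_nonneg.2 e1) (f0 _))
        · refine ⟨S, hS.trans ?_⟩
          rw [ovr_comm (Set.disjoint_singleton_right.2 (by simpa using he))]
          refine mul_le_mul_of_nonneg_left ?_ (pow_nonneg e0 _)
          have := ft (ovr (S : Set ι) True ω)
          nlinarith
    rw [Ex_lin] at k2
    simp only [Ex]
    have a1 := mul_le_mul_of_nonneg_left k1 h0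
    have a2 := mul_le_mul_of_nonneg_left k2 (sub_nonneg.2 h1)
    nlinarith

/-- configurations that enter `A` after opening at most `k` coordinates -/
def Near (k : ℕ) (A : Set (ι → Prop)) : Set (ι → Prop) :=
  {ω | ∃ S : Finset ι, S.card ≤ k ∧ ovr (S : Set ι) True ω ∈ A}

lemma dep_near {E : Set ι} {A : Set (ι → Prop)} (h : Dep E A) (k : ℕ) : Dep E (Near k A) := by
  rintro ω ω' hh ⟨S, h1, h2⟩
  exact ⟨S, h1, ((h.ovr (S : Set ι) True).mono sdiff_subset) ω ω' hh h2⟩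

lemma sprinkle {q ε : ℝ} (h0 : 0 ≤ q) (h1 : q ≤ 1) (e0 : 0 ≤ ε) (e1 : ε ≤ 1) {E : Set ι}
    (hE : E.Finite) {A : Set (ι → Prop)} (hA : Dep E A) (iA : Incr A) (k : ℕ) :
    ε ^ k * pr q (Near k A) ≤ pr (q + (1 - q) * ε) A := by
  have hl : E ⊆ {x | x ∈ hE.toFinset.toList} := fun x hx => by simpa using hx
  have g0 : 0 ≤ q + (1 - q) * ε := add_nonneg h0 (mul_nonneg (sub_nonneg.2 h1) e0)
  have g1 : q + (1 - q) * ε ≤ 1 := by nlinarith
  rw [pr_eq_Ex h0 h1 _ _ ((dep_near hA k).mono hl), pr_eq_Ex g0 g1 _ _ (hA.mono hl)]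
  have lin := Ex_lin q (ε ^ k) 0 hE.toFinset.toList ((Near k A).indicator fun _ => 1)
    ((Near k A).indicator fun _ => 1)
  rw [zero_mul, add_zero] at lin
  rw [← lin]
  have nn : ∀ ω, 0 ≤ A.indicator (fun _ => (1 : ℝ)) ω :=
    fun ω => Set.indicator_nonneg (fun _ _ => zero_le_one) ω
  refine sprinkle_Ex h0 h1 e0 e1 _ _ _ nn (fun ω ω' h => ?_) (fun ω ω' h => ?_) fun ω => ?_
  · by_cases hω : ω ∈ A
    · rw [indicator_of_mem hω, indicator_of_mem (iA _ _ h hω)]
    · rw [indicator_of_notMem hω]; exact nn _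
  · have := (hA.mono hl).iff h
    by_cases hω : ω ∈ A
    · rw [indicator_of_mem hω, indicator_of_mem (this.1 hω)]
    · rw [indicator_of_notMem hω, indicator_of_notMem fun k => hω (this.2 k)]
  · by_cases hω : ω ∈ Near k A
    · obtain ⟨S, k1, k2⟩ := id hω
      refine ⟨S, ?_⟩
      rw [indicator_of_mem hω, indicator_of_mem k2, zero_mul, add_zero, mul_one, mul_one]
      exact pow_le_pow_of_le_one e0 e1 k1
    · refine ⟨∅, ?_⟩
      rw [indicator_of_notMem hω, mul_zero, mul_zero, add_zero]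
      exact mul_nonneg (pow_nonneg e0 _) (nn _)

/-- arms with few closed edges are exponentially rare below the critical point -/
theorem near_arm {q : ℝ} (h0 : 0 ≤ q) (h1 : q < 1 / 2) : ∃ K : ℕ, 1 ≤ K ∧
    ∀ (x : V) (n : ℕ), 1 ≤ n →
      pr q (Near n (Arm x ((K * n : ℕ) : ℤ))) ≤ (1 / 2) ^ n / ((2 * K : ℕ) : ℝ) ^ 2 := by
  obtain ⟨ε, hε⟩ : ∃ ε : ℝ, ε = (1 / 2 - q) / 2 := ⟨_, rfl⟩
  have e0 : 0 < ε := by linarith
  have e1 : ε ≤ 1 := by linarith
  have g0 : 0 ≤ q + (1 - q) * ε := add_nonneg h0 (mul_nonneg (by linarith) e0.le)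
  have g1 : q + (1 - q) * ε < 1 / 2 := by nlinarith
  obtain ⟨r, L, r0, r1, hL, hd⟩ := exp_decay g0 g1
  have hL' : (0 : ℝ) < L := by exact_mod_cast hL
  have lim := tendsto_pow_const_mul_const_pow_of_abs_lt_one 2 (r := r) (by rwa [abs_of_nonneg r0])
  have hpos : 0 < ε / (8 * (L : ℝ) ^ 2) := by positivity
  obtain ⟨j, hj, hj1⟩ := ((lim.eventually (gt_mem_nhds hpos)).and
    (Filter.eventually_ge_atTop 1)).exists
  have hj' : (1 : ℝ) ≤ j := by exact_mod_cast hj1
  refine ⟨L * j, Nat.mul_pos hL hj1, fun x n hn => ?_⟩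
  obtain ⟨D, hD⟩ : ∃ D : ℝ, D = ((2 * (L * j) : ℕ) : ℝ) ^ 2 := ⟨_, rfl⟩
  have hD' : D = 4 * (L : ℝ) ^ 2 * (j : ℝ) ^ 2 := by rw [hD]; push_cast; ring
  have D1 : 1 ≤ D := by
    rw [hD]
    exact one_le_pow₀ (by exact_mod_cast Nat.mul_pos two_pos (Nat.mul_pos hL hj1))
  rw [← hD]
  have k1 := sprinkle h0 (by linarith) e0.le e1 (Ed_finite (box_finite x ((L * j * n : ℕ) : ℤ)))
    (dep_Cr _ {x} (box x (((L * j * n : ℕ) : ℤ) - 1))ᶜ) (incr_Cr _ _ _) n
  have k2 := (pr_arm_le (p := q + (1 - q) * ε) x ((L * j * n : ℕ) : ℤ)).trans (hd (L * j * n))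
  rw [mul_assoc, Nat.mul_div_cancel_left _ hL, pow_mul, ← mul_assoc] at k2
  have k3 : r ^ j ≤ ε * (1 / 2 / D) := by
    rw [lt_div_iff₀ (by positivity)] at hj
    rw [← mul_div_assoc, le_div_iff₀ (by linarith), hD']
    nlinarith
  have k4 : (r ^ j) ^ n ≤ ε ^ n * ((1 / 2) ^ n / D) := by
    refine (pow_le_pow_left₀ (pow_nonneg r0 _) k3 n).trans ?_
    rw [mul_pow, div_pow]
    refine mul_le_mul_of_nonneg_left ?_ (pow_nonneg e0.le _)
    exact div_le_div_of_nonneg_left (by positivity) (by linarith) (le_self_pow₀ D1 (by omega))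
  exact le_of_mul_le_mul_left ((k1.trans k2).trans k4) (pow_pos e0 n)

end Pool.Agent.Lib.SBW.Spr90
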